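import Pool.Agent.W744.SF.Stubs

/-!
# SF-8: the zero mean tensors span the common orthogonal complement (S_Span)
-/

set_option autoImplicit false

namespace Pool.Agent.W342.SF

open MeasureTheory Set Filter Topology
open scoped ENNReal

section

variable {X : Type} [MeasurableSpace X] (μ : Measure X) [IsProbabilityMeasure μ] {k : ℕ}

/-- updating a coordinate by an independent point preserves the product measure -/
theorem mp_update (i : Fin k) :
    MeasurePreserving (fun p : (Fin k → X) × X => Function.update p.1 i p.2)
      ((Measure.pi fun _ : Fin k => μ).prod μ) (Measure.pi fun _ : Fin k => μ) := by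
  have hm : Measurable (fun p : (Fin k → X) × X => Function.update p.1 i p.2) := by
    rw [measurable_pi_iff]
    intro j
    by_cases h : j = i
    · subst h; simp only [Function.update_self]; exact measurable_snd
    · simp only [Function.update_of_ne h]; exact (measurable_pi_apply j).comp measurable_fst
  refine ⟨hm, ?_⟩
  symm
  refine Measure.pi_eq fun s hs => ?_
  rw [Measure.map_apply hm (MeasurableSet.univ_pi hs)]
  have h1 : (fun p : (Fin k → X) × X => Function.update p.1 i p.2) ⁻¹' (univ.pi s) =
      (univ.pi (Function.update s i univ)) ×ˢ (s i) := by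
    ext p
    simp only [mem_preimage, Set.mem_pi, mem_univ, true_implies, mem_prod]
    constructor
    · intro h
      refine ⟨fun j => ?_, ?_⟩
      · by_cases hj : j = i
        · subst hj; simp
        · have := h j
          rw [Function.update_of_ne hj] at this ⊢
          exact this
      · have := h i
        rwa [Function.update_self] at this
    · rintro ⟨h1, h2⟩ j
      by_cases hj : j = i
      · subst hj; rw [Function.update_self]; exact h2
      · have := h1 j
        rw [Function.update_of_ne hj] at this ⊢
        exact this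
  rw [h1, Measure.prod_prod, Measure.pi_pi]
  rw [← Finset.mul_prod_erase _ _ (Finset.mem_univ i)]
  rw [Function.update_self, measure_univ, one_mul, mul_comm]
  rw [← Finset.mul_prod_erase _ (fun j => μ (s j)) (Finset.mem_univ i)]
  congr 1
  refine Finset.prod_congr rfl fun j hj => ?_
  rw [Function.update_of_ne (Finset.ne_of_mem_erase hj)]

/-- functions with zero mean in one coordinate -/
theorem int_zero (i : Fin k) (F : (Fin k → X) → ℂ)
    (h : ∀ x, ∫ y, F (Function.update x i y) ∂μ = 0) :
    ∫ x, F x ∂(Measure.pi fun _ : Fin k => μ) = 0 := by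
  by_cases hF : Integrable F (Measure.pi fun _ : Fin k => μ)
  · have hmp := mp_update μ i
    have h1 : ∫ x, F x ∂(Measure.pi fun _ : Fin k => μ) =
        ∫ p, F (Function.update p.1 i p.2) ∂((Measure.pi fun _ : Fin k => μ).prod μ) := by
      conv_lhs => rw [← hmp.map_eq]
      rw [integral_map hmp.measurable.aemeasurable]
      rw [hmp.map_eq]; exact hF.1
    rw [h1, integral_prod]
    · simp only [h, integral_zero]
    · exact (hmp.integrable_comp hF.1).2 hF
  · exact integral_undef hF

theorem memLp_tensor (f : Fin k → X → ℂ) (hf : ∀ i, MemLp (f i) 2 μ) :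
    MemLp (fun x : Fin k → X => ∏ i, f i (x i)) 2 (Measure.pi fun _ : Fin k => μ) := by
  have hmeas : AEStronglyMeasurable (fun x : Fin k → X => ∏ i, f i (x i))
      (Measure.pi fun _ : Fin k => μ) := by
    refine Finset.aestronglyMeasurable_fun_prod _ fun i _ => ?_
    exact (hf i).1.comp_quasiMeasurePreserving
      (measurePreserving_eval (fun _ : Fin k => μ) i).quasiMeasurePreserving
  rw [memLp_two_iff_integrable_sq_norm hmeas]
  have h1 : ∀ i, Integrable (fun y => ‖f i y‖ ^ 2) μ := fun i =>
    (memLp_two_iff_integrable_sq_norm (hf i).1).1 (hf i)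
  have h2 := Integrable.fintype_prod (f := fun (i : Fin k) (y : X) => ‖f i y‖ ^ 2)
    (μ := fun _ => μ) h1
  refine h2.congr (Eventually.of_forall fun x => ?_)
  simp only
  rw [norm_prod, Finset.prod_pow]

theorem part1 (f : Fin k → X → ℂ) (hf0 : ∀ i, ∫ x, f i x ∂μ = 0) (i : Fin k)
    (g : (Fin k → X) → ℂ) (hg : ∀ (x : Fin k → X) (y : X), g (Function.update x i y) = g x) :
    ∫ x, (∏ l, f l (x l)) * starRingEnd ℂ (g x) ∂(Measure.pi fun _ : Fin k => μ) = 0 := by
  refine int_zero μ i _ fun x => ?_
  have h1 : ∀ y, (∏ l, f l (Function.update x i y l)) * starRingEnd ℂ (g (Function.update x i y)) =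
      f i y * ((∏ l ∈ Finset.univ.erase i, f l (x l)) * starRingEnd ℂ (g x)) := by
    intro y
    rw [hg, ← Finset.mul_prod_erase _ _ (Finset.mem_univ i), Function.update_self, mul_assoc]
    congr 2
    refine Finset.prod_congr rfl fun j hj => ?_
    rw [Function.update_of_ne (Finset.ne_of_mem_erase hj)]
  simp only [h1]
  rw [integral_mul_const, hf0, zero_mul]

/-- a square integrable function orthogonal to all tensors vanishes -/
theorem zero_of_tensors (u : (Fin k → X) → ℂ) (hu : Integrable u (Measure.pi fun _ : Fin k => μ))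
    (h : ∀ s : Fin k → Set X, (∀ i, MeasurableSet (s i)) →
      ∫ x in univ.pi s, u x ∂(Measure.pi fun _ : Fin k => μ) = 0) :
    u =ᵐ[Measure.pi fun _ : Fin k => μ] 0 := by
  have huniv : ∫ x, u x ∂(Measure.pi fun _ : Fin k => μ) = 0 := by
    have := h (fun _ => univ) (fun _ => MeasurableSet.univ)
    rwa [pi_univ, Measure.restrict_univ] at this
  have hall : ∀ s, MeasurableSet s → ∫ x in s, u x ∂(Measure.pi fun _ : Fin k => μ) = 0 := by
    intro s hs
    induction s, hs using MeasurableSpace.induction_on_inter
      (generateFrom_pi (α := fun _ : Fin k => X)).symm isPiSystem_pi with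
    | empty => simp
    | basic t ht =>
      obtain ⟨s, hs, rfl⟩ := ht
      exact h s fun i => hs i (mem_univ i)
    | compl t htm ih =>
      have := integral_add_compl htm hu
      rw [ih, huniv, zero_add] at this
      exact this
    | iUnion f hd hm ih =>
      have h1 := hasSum_integral_iUnion hm hd hu.integrableOn
      simp only [ih] at h1
      exact h1.unique hasSum_zero
  exact hu.ae_eq_zero_of_forall_setIntegral_eq_zero fun s hs _ => hall s hs

end

theorem main : Pool.Agent.W744.SF.S_Span := by
  classical
  intro X _ μ _ k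
  refine ⟨fun f hf hf0 i g hg hgi => part1 μ f hf0 i g hgi, ?_⟩
  set P : Measure (Fin k → X) := Measure.pi fun _ : Fin k => μ with hP
  intro W hWc hW h hh hort
  -- the closed span of the zero mean tensors
  set T0 : Set (Lp ℂ 2 P) := {F | ∃ f : Fin k → X → ℂ, (∀ i, MemLp (f i) 2 μ) ∧
    (∀ i, ∫ x, f i x ∂μ = 0) ∧ (F : (Fin k → X) → ℂ) =ᵐ[P] (fun x => ∏ i, f i (x i))} with hT0
  set M : Submodule ℂ (Lp ℂ 2 P) := (Submodule.span ℂ T0).topologicalClosure with hM
  have hMW : M ≤ W := by
    refine Submodule.topologicalClosure_minimal _ ?_ hWc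
    rw [Submodule.span_le]
    rintro F ⟨f, hf, hf0, hF⟩
    exact hW f hf hf0 F hF
  have hMc : IsClosed (M : Set (Lp ℂ 2 P)) := Submodule.isClosed_topologicalClosure _
  have hcs : CompleteSpace M := hMc.completeSpace_coe
  obtain ⟨m, hm, v, hv, hmv⟩ := M.exists_add_mem_mem_orthogonal (hh.toLp h)
  -- inner products as integrals
  have hinner : ∀ (g : (Fin k → X) → ℂ) (hg : MemLp g 2 P) (u : Lp ℂ 2 P),
      inner ℂ (hg.toLp g) u = ∫ x, u x * starRingEnd ℂ (g x) ∂P := by
    intro g hg u
    rw [L2.inner_def]
    refine integral_congr_ae ?_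
    filter_upwards [hg.coeFn_toLp] with x hx
    rw [hx, RCLike.inner_apply]
  -- `v` is orthogonal to the functions not depending on a coordinate
  have hvi : ∀ (i : Fin k) (g : (Fin k → X) → ℂ) (hg : MemLp g 2 P),
      (∀ (x : Fin k → X) (y : X), g (Function.update x i y) = g x) →
      inner ℂ (hg.toLp g) v = 0 := by
    intro i g hg hgi
    have h1 : inner ℂ (hg.toLp g) (hh.toLp h) = 0 := by
      rw [hinner g hg, ← hort i g hg hgi]
      refine integral_congr_ae ?_
      filter_upwards [hh.coeFn_toLp] with x hx
      rw [hx]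
    have h2 : inner ℂ (hg.toLp g) m = 0 := by
      have h3 : M ≤ (Submodule.span ℂ {hg.toLp g})ᗮ := by
        refine Submodule.topologicalClosure_minimal _ ?_ (Submodule.isClosed_orthogonal _)
        rw [Submodule.span_le]
        rintro F ⟨f, hf, hf0, hF⟩
        rw [SetLike.mem_coe, Submodule.mem_orthogonal_singleton_iff_inner_right, hinner g hg F]
        have := part1 μ f hf0 i g hgi
        rw [← this]
        refine integral_congr_ae ?_
        filter_upwards [hF] with x hx
        rw [hx]
      exact Submodule.mem_orthogonal_singleton_iff_inner_right.1 (h3 hm)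
    have h4 : inner ℂ (hg.toLp g) (hh.toLp h) = inner ℂ (hg.toLp g) m + inner ℂ (hg.toLp g) v := by
      rw [hmv, inner_add_right]
    rw [h1, h2, zero_add] at h4
    exact h4.symm
  -- `v` is orthogonal to the zero mean tensors
  have hvt : ∀ (f : Fin k → X → ℂ) (hf : ∀ i, MemLp (f i) 2 μ), (∀ i, ∫ x, f i x ∂μ = 0) →
      inner ℂ ((memLp_tensor μ f hf).toLp _) v = 0 := by
    intro f hf hf0
    refine hv _ ?_
    refine Submodule.le_topologicalClosure _ (Submodule.subset_span ?_)
    exact ⟨f, hf, hf0, (memLp_tensor μ f hf).coeFn_toLp⟩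
  -- integrability of products
  have hint : ∀ (g : (Fin k → X) → ℂ), MemLp g 2 P →
      Integrable (fun x => v x * starRingEnd ℂ (g x)) P := by
    intro g hg
    have h1 : MemLp (fun x => starRingEnd ℂ (g x)) 2 P := hg.star
    have h2 := MemLp.mul h1 (Lp.memLp v) (r := 1) (p := 2) (q := 2)
    rw [memLp_one_iff_integrable] at h2
    refine h2.congr (Eventually.of_forall fun x => ?_)
    rfl
  -- `v` is orthogonal to all tensors
  have hva : ∀ (f : Fin k → X → ℂ), (∀ i, MemLp (f i) 2 μ) →
      ∫ x, v x * starRingEnd ℂ (∏ i, f i (x i)) ∂P = 0 := by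
    intro f hf
    set c : Fin k → ℂ := fun i => ∫ y, f i y ∂μ with hc
    set b : Fin k → X → ℂ := fun i y => f i y - c i with hb
    have hbm : ∀ i, MemLp (b i) 2 μ := fun i => (hf i).sub (memLp_const _)
    have hb0 : ∀ i, ∫ y, b i y ∂μ = 0 := by
      intro i
      simp only [hb]
      rw [integral_sub ((hf i).integrable (by norm_num)) (integrable_const _)]
      simp [hc]
    -- the pieces
    set g : Finset (Fin k) → Fin k → X → ℂ := fun S i y => if i ∈ S then b i y else c i with hg
    have hgm : ∀ S i, MemLp (g S i) 2 μ := by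
      intro S i
      simp only [hg]
      by_cases h : i ∈ S
      · simp only [h, if_true]; exact hbm i
      · simp only [h, if_false]; exact memLp_const _
    have hexp : ∀ x : Fin k → X, ∏ i, f i (x i) =
        ∑ S ∈ (Finset.univ : Finset (Fin k)).powerset, ∏ i, g S i (x i) := by
      intro x
      have h1 : ∏ i, f i (x i) = ∏ i, (b i (x i) + c i) := by
        refine Finset.prod_congr rfl fun i _ => ?_
        simp [hb]
      rw [h1, Finset.prod_add]
      refine Finset.sum_congr rfl fun S _ => ?_
      simp only [hg]
      rw [Finset.prod_ite]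
      congr 1
      · refine Finset.prod_congr ?_ fun _ _ => rfl
        ext i; simp
      · refine Finset.prod_congr ?_ fun _ _ => rfl
        ext i; simp
    have hpiece : ∀ S : Finset (Fin k), ∫ x, v x * starRingEnd ℂ (∏ i, g S i (x i)) ∂P = 0 := by
      intro S
      rw [← hinner _ (memLp_tensor μ (g S) (hgm S)) v]
      by_cases hS : S = Finset.univ
      · refine hvt (g S) (hgm S) fun i => ?_
        simp only [hg, hS, Finset.mem_univ, if_true]
        exact hb0 i
      · obtain ⟨i, hi⟩ : ∃ i, i ∉ S := by
          by_contra hcon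
          push Not at hcon
          exact hS (Finset.eq_univ_iff_forall.2 hcon)
        refine hvi i _ (memLp_tensor μ (g S) (hgm S)) fun x y => ?_
        refine Finset.prod_congr rfl fun j _ => ?_
        by_cases hj : j = i
        · subst hj
          simp only [hg, hi, if_false]
        · rw [Function.update_of_ne hj]
    have h2 : ∀ x : Fin k → X, v x * starRingEnd ℂ (∏ i, f i (x i)) =
        ∑ S ∈ (Finset.univ : Finset (Fin k)).powerset,
          v x * starRingEnd ℂ (∏ i, g S i (x i)) := by
      intro x
      rw [hexp, map_sum, Finset.mul_sum]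
    simp only [h2]
    rw [integral_finsetSum _ fun S _ => hint _ (memLp_tensor μ (g S) (hgm S))]
    exact Finset.sum_eq_zero fun S _ => hpiece S
  have hv0 : (v : (Fin k → X) → ℂ) =ᵐ[P] 0 := by
    refine zero_of_tensors μ _ ((Lp.memLp v).integrable (by norm_num)) fun s hs => ?_
    have h1 := hva (fun i => (s i).indicator 1) fun i =>
      memLp_indicator_const 2 (hs i) (1 : ℂ) (Or.inr (measure_ne_top _ _))
    rw [← integral_indicator (MeasurableSet.univ_pi hs), ← h1]
    refine integral_congr_ae (Eventually.of_forall fun x => ?_)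
    simp only
    by_cases hx : x ∈ univ.pi s
    · rw [indicator_of_mem hx]
      have : ∏ i, (s i).indicator (1 : X → ℂ) (x i) = 1 := by
        refine Finset.prod_eq_one fun i _ => ?_
        rw [indicator_of_mem (hx i (mem_univ i))]
        rfl
      rw [this]; simp
    · rw [indicator_of_notMem hx]
      obtain ⟨i, hi⟩ : ∃ i, x i ∉ s i := by
        by_contra hcon
        push Not at hcon
        exact hx fun i _ => hcon i
      have : ∏ i, (s i).indicator (1 : X → ℂ) (x i) = 0 :=
        Finset.prod_eq_zero (Finset.mem_univ i) (indicator_of_notMem hi _)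
      rw [this]; simp
  have hv00 : v = 0 := (Lp.eq_zero_iff_ae_eq_zero).2 hv0
  rw [hmv, hv00, add_zero]
  exact hMW hm


end Pool.Agent.W342.SF
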