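import Pool.Agent.W744.SF.Stubs

/-!
# SF-10: trigonometric polynomials are dense in `L²` of the unit interval (S_Trig)
-/

set_option autoImplicit false

namespace Pool.Agent.W342.SF.Trig

open MeasureTheory Set Filter Topology AddCircle
open scoped ENNReal

theorem main : Pool.Agent.W744.SF.S_Trig := by
  classical
  intro f ε hf hε
  have hlam : Pool.H359R3.lam = volume.restrict (Ioc (0 : ℝ) (0 + 1)) := by
    rw [zero_add]
    exact (Measure.restrict_congr_set Ioc_ae_eq_Icc).symm
  rw [hlam] at hf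
  have hF : MemLp (AddCircle.liftIoc 1 0 f) 2 (haarAddCircle (T := 1)) :=
    memLp_haarAddCircle_iff.2 hf.memLp_liftIoc
  set F : UnitAddCircle → ℂ := AddCircle.liftIoc 1 0 f with hFd
  have hvol : (volume : Measure UnitAddCircle) = haarAddCircle := by
    have := volume_eq_smul_haarAddCircle (T := (1 : ℝ))
    rw [ENNReal.ofReal_one, one_smul] at this
    exact this
  -- density
  have hdense := span_fourierLp_closure_eq_top (T := (1 : ℝ)) (p := 2) (by norm_num)
  have hmem : hF.toLp F ∈ ((Submodule.span ℂ (range (fourierLp (T := (1 : ℝ)) 2))).topologicalClosure :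
      Submodule ℂ (Lp ℂ 2 (haarAddCircle (T := 1)))) := by
    rw [hdense]; exact Submodule.mem_top
  have hcl : hF.toLp F ∈ closure ((Submodule.span ℂ (range (fourierLp (T := (1 : ℝ)) 2)) :
      Submodule ℂ (Lp ℂ 2 (haarAddCircle (T := 1)))) : Set (Lp ℂ 2 (haarAddCircle (T := 1)))) := by
    rw [← Submodule.topologicalClosure_coe]; exact hmem
  obtain ⟨G, hG, hGd⟩ := Metric.mem_closure_iff.1 hcl ε hε
  obtain ⟨c, hc⟩ := Finsupp.mem_span_range_iff_exists_finsupp.1 (SetLike.mem_coe.1 hG)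
  -- bound of the support
  obtain ⟨J, hJ⟩ : ∃ J : ℕ, c.support ⊆ Finset.Icc (-(J : ℤ)) J := by
    refine ⟨c.support.sup Int.natAbs, fun n hn => ?_⟩
    have h1 : n.natAbs ≤ c.support.sup Int.natAbs := Finset.le_sup (f := Int.natAbs) hn
    rw [Finset.mem_Icc]
    omega
  refine ⟨J, c, ?_⟩
  have hGe : G = ∑ n ∈ Finset.Icc (-(J : ℤ)) J, c n • fourierLp (T := (1 : ℝ)) 2 n := by
    rw [← hc, Finsupp.sum]
    refine Finset.sum_subset hJ fun n _ hn => ?_
    rw [Finsupp.notMem_support_iff.1 hn, zero_smul]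
  -- the function on the circle
  set g : UnitAddCircle → ℂ := fun z => F z - ∑ n ∈ Finset.Icc (-(J : ℤ)) J, c n * fourier n z with hg
  have hgae : ((hF.toLp F - G : Lp ℂ 2 (haarAddCircle (T := 1))) : UnitAddCircle → ℂ)
      =ᵐ[haarAddCircle] g := by
    have h1 := Lp.coeFn_sub (hF.toLp F) G
    have h2 : (G : UnitAddCircle → ℂ) =ᵐ[haarAddCircle]
        fun z => ∑ n ∈ Finset.Icc (-(J : ℤ)) J, c n * fourier n z := by
      have h3 : ∀ n ∈ Finset.Icc (-(J : ℤ)) J,
          ((c n • fourierLp (T := (1 : ℝ)) 2 n : Lp ℂ 2 (haarAddCircle (T := 1))) :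
            UnitAddCircle → ℂ) =ᵐ[haarAddCircle] fun z => c n * fourier n z := by
        intro n _
        filter_upwards [Lp.coeFn_smul (c n) (fourierLp (T := (1 : ℝ)) 2 n),
          coeFn_fourierLp (T := (1 : ℝ)) 2 n] with z h1 h2
        rw [h1, Pi.smul_apply, h2, smul_eq_mul]
      have h5 : ∀ᵐ z ∂(haarAddCircle (T := 1)), ∀ n ∈ Finset.Icc (-(J : ℤ)) J,
          ((c n • fourierLp (T := (1 : ℝ)) 2 n : Lp ℂ 2 (haarAddCircle (T := 1))) :
            UnitAddCircle → ℂ) z = c n * fourier n z := by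
        exact (Filter.eventually_all_finset _).2 h3
      rw [hGe]
      filter_upwards [h5, Lp.coeFn_finsetSum (Finset.Icc (-(J : ℤ)) J)
        (fun n => c n • fourierLp (T := (1 : ℝ)) 2 n)] with z hz1 hz2
      rw [hz2, Finset.sum_apply]
      exact Finset.sum_congr rfl hz1
    filter_upwards [h1, h2, hF.coeFn_toLp] with z hz1 hz2 hz3
    rw [hz1, Pi.sub_apply, hz2, hz3]
  have hgm : AEStronglyMeasurable g haarAddCircle :=
    (Lp.aestronglyMeasurable (hF.toLp F - G)).congr hgae
  have hgn : eLpNorm g 2 haarAddCircle ≤ ENNReal.ofReal ε := by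
    rw [← eLpNorm_congr_ae hgae, ← Lp.enorm_def, ← ofReal_norm, ← dist_eq_norm]
    exact ENNReal.ofReal_le_ofReal hGd.le
  -- back to the interval
  have hmp := UnitAddCircle.measurePreserving_mk 0
  rw [hlam]
  have h6 : eLpNorm (fun x : ℝ => f x - ∑ j ∈ Finset.Icc (-(J : ℤ)) J, c j *
      Complex.exp (2 * Real.pi * Complex.I * j * x)) 2 (volume.restrict (Ioc (0 : ℝ) (0 + 1))) =
      eLpNorm (g ∘ ((↑) : ℝ → UnitAddCircle)) 2 (volume.restrict (Ioc (0 : ℝ) (0 + 1))) := by
    refine eLpNorm_congr_ae ?_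
    filter_upwards [ae_restrict_mem measurableSet_Ioc] with x hx
    simp only [Function.comp_apply, hg, hFd]
    rw [AddCircle.liftIoc_coe_apply hx]
    congr 1
    refine Finset.sum_congr rfl fun n _ => ?_
    rw [fourier_coe_apply]
    congr 2
    push_cast
    ring
  rw [h6, eLpNorm_comp_measurePreserving (by rw [hvol]; exact hgm) hmp, hvol]
  exact hgn


end Pool.Agent.W342.SF.Trig
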